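import Pool.Agent.AVB.Asym

set_option autoImplicit false

/-!
# MP_289501_co, part (b): a local criterion for the Reverse Weak game

`Pool.Agent.AVB.AWin F k U Y` is the game, with Forcer to move: `U` is the set of unselected
points, `Y` the set of points of Forcer and `k` the number of rounds left.  The whole game on the
board `U` is `AWin F (U.card / 2) U ∅`: after `U.card / 2` rounds at most one point is left, and
it goes to Forcer.

Avoider has a Strong Draw on every `n`-uniform hypergraph with at most `2 ^ (q ^ J * n / 2)` sets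
in which each set meets fewer than `2 ^ d` others, if `8 * q * 4 ^ J * d ≤ n`.  In particular,
for each `ε > 0` and `C`, if `n` is large: on every `n`-uniform hypergraph with at most
`2 ^ (n ^ C)` sets in which each set meets at most `2 ^ (n ^ (1 - ε))` others.
-/

namespace Pool.Agent.Results.MP_289501_co.AvoiderLocal

open Finset Pool.Agent.AVB

theorem result :
    (∀ (V : Type) [DecidableEq V] (n d J q : ℕ), 1 ≤ d → 1 ≤ J → 2 ≤ q →
      8 * q * 4 ^ J * d ≤ n → ∀ (U : Finset V) (F : Finset (Finset V)), (∀ A ∈ F, A ⊆ U) →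
      (∀ A ∈ F, A.card = n) →
      (∀ A ∈ F, (F.filter fun B => B ≠ A ∧ ¬ Disjoint A B).card < 2 ^ d) →
      F.card ≤ 2 ^ (q ^ J * n / 2) → AWin F (U.card / 2) U ∅) ∧
    (∀ ε : ℝ, 0 < ε → ∀ C : ℝ, ∃ n₀ : ℕ, ∀ n : ℕ, n₀ ≤ n →
      ∀ (V : Type) [DecidableEq V] (U : Finset V) (F : Finset (Finset V)), (∀ A ∈ F, A ⊆ U) →
      (∀ A ∈ F, A.card = n) →
      (∀ A ∈ F, ((F.filter fun B => B ≠ A ∧ ¬ Disjoint A B).card : ℝ) ≤
        2 ^ ((n : ℝ) ^ (1 - ε))) →
      ((F.card : ℝ) ≤ 2 ^ ((n : ℝ) ^ C)) → AWin F (U.card / 2) U ∅) :=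
  ⟨fun _ _ _ _ _ _ hd hJ hq hn U F hU hcard hdeg hF =>
      avoider_draw hd hJ hq hn U F hU hcard hdeg hF,
    fun _ hε C => avoider_draw_asymptotic hε C⟩

end Pool.Agent.Results.MP_289501_co.AvoiderLocal
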