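import Pool.Agent.H19CP.Phase

set_option autoImplicit false

/-!
# MP_289501_co, part (c): the Erdos-Selfridge theorem for Picker, with the sharp constant

If `∑_{A ∈ F} 2^{-|A|} (1 + [z ∈ A]) < 1` for every point `z`, then Picker has a Strong Draw in the
Chooser-Picker game on `F`.  Consequently part (c) of the question holds for every `n`-uniform
hypergraph satisfying the Erdos-Lovasz condition and having fewer than `(7/8) 2^n - 1` sets.
The predicate `Pool.Agent.ChPi.Draw F U P` is the game: `U` is the set of unselected points and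
`P` the set of points Picker has received.
-/

namespace Pool.Agent.Results.MP_289501_co.ChooserPickerErdosSelfridge

open Finset

/-- Picker has a Strong Draw if `∑_{A ∈ F} 2^{-|A|} (1 + [z ∈ A]) < 1` for every point `z`. -/
theorem result (V : Type) [Fintype V] [DecidableEq V] [Nonempty V] (F : Finset (Finset V))
    (h : ∀ z : V, ∑ A ∈ F, (1 / 2 : ℝ) ^ A.card * (1 + if z ∈ A then 1 else 0) < 1) :
    Pool.Agent.ChPi.Draw F univ ∅ := by
  have hf : F.filter (fun W => Disjoint W ∅) = F := by
    apply filter_true_of_mem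
    intro W _
    exact disjoint_empty_right W
  have ht : ∀ W : Finset V, H19CP.tt univ W = (1 / 2 : ℝ) ^ W.card := by
    intro W
    unfold H19CP.tt
    rw [inter_univ]
  have h1 : ∀ z : V, ∑ W ∈ F, H19CP.tt univ W * (1 + H19CP.ii z W) < 1 := by
    intro z
    refine lt_of_le_of_lt (le_of_eq ?_) (h z)
    apply sum_congr rfl
    intro W _
    rw [ht]
    rfl
  apply H19CP.phase F F univ.card univ univ ∅ le_rfl (Subset.refl _)
  · rw [hf]
    obtain ⟨z⟩ := ‹Nonempty V›
    refine lt_of_le_of_lt ?_ (h1 z)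
    apply sum_le_sum
    intro W _
    have h2 := H19CP.tt_nonneg univ W
    have h3 := H19CP.ii_nonneg z W
    nlinarith
  · intro z _
    rw [hf]
    exact h1 z
  · intro U' P' _ _ hcard _ _ hW
    rw [inter_univ] at hcard
    apply Pool.Agent.ChPi.Draw.last U' P' hcard
    intro A hA
    exact not_disjoint_iff_nonempty_inter.1 (hW A hA)

/-- Part (c) of the question for all `n`-uniform `F` that satisfy the Erdos-Lovasz condition
and have fewer than `(7/8) 2^n - 1` sets. -/
theorem uniform (n : ℕ) (V : Type) [Fintype V] [DecidableEq V] [Nonempty V]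
    (F : Finset (Finset V)) (hF : ∀ A ∈ F, A.card = n)
    (hmeet : ∀ A ∈ F,
      ((F.filter fun B => B ≠ A ∧ ¬ Disjoint A B).card : ℝ) ≤ 2 ^ n / 8)
    (hcard : (F.card : ℝ) < 7 / 8 * 2 ^ n - 1) : Pool.Agent.ChPi.Draw F univ ∅ := by
  apply result
  intro z
  have hdeg : ((F.filter fun A => z ∈ A).card : ℝ) ≤ 2 ^ n / 8 + 1 := by
    rcases Finset.eq_empty_or_nonempty (F.filter fun A => z ∈ A) with he | ⟨A, hA⟩
    · rw [he]
      simp only [card_empty, Nat.cast_zero]
      positivity
    · obtain ⟨hA1, hA2⟩ := Finset.mem_filter.1 hA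
      have h1 : (F.filter fun B => z ∈ B) ⊆
          insert A (F.filter fun B => B ≠ A ∧ ¬ Disjoint A B) := by
        intro B hB
        obtain ⟨hB1, hB2⟩ := Finset.mem_filter.1 hB
        rw [Finset.mem_insert, Finset.mem_filter]
        by_cases hBA : B = A
        · exact Or.inl hBA
        · exact Or.inr ⟨hB1, hBA, fun hdis => Finset.disjoint_left.1 hdis hA2 hB2⟩
      have h2 := (Finset.card_le_card h1).trans (Finset.card_insert_le _ _)
      have h3 := hmeet A hA1
      have h4 : ((F.filter fun B => z ∈ B).card : ℝ) ≤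
          ((F.filter fun B => B ≠ A ∧ ¬ Disjoint A B).card : ℝ) + 1 := by exact_mod_cast h2
      linarith
  have hsum : ∑ A ∈ F, (1 / 2 : ℝ) ^ A.card * (1 + if z ∈ A then (1 : ℝ) else 0) =
      (1 / 2 : ℝ) ^ n * ((F.card : ℝ) + ((F.filter fun A => z ∈ A).card : ℝ)) := by
    have : ∀ A ∈ F, (1 / 2 : ℝ) ^ A.card * (1 + if z ∈ A then (1 : ℝ) else 0) =
        (1 / 2 : ℝ) ^ n * (1 + if z ∈ A then (1 : ℝ) else 0) := by
      intro A hA
      rw [hF A hA]
    rw [sum_congr rfl this, ← mul_sum, sum_add_distrib, card_filter]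
    push_cast
    simp
  rw [hsum]
  have h5 : (1 / 2 : ℝ) ^ n * 2 ^ n = 1 := by
    rw [← mul_pow]
    norm_num
  have h6 : (0 : ℝ) < (1 / 2 : ℝ) ^ n := by positivity
  have h7 : (F.card : ℝ) + ((F.filter fun A => z ∈ A).card : ℝ) < 2 ^ n := by linarith
  calc (1 / 2 : ℝ) ^ n * ((F.card : ℝ) + ((F.filter fun A => z ∈ A).card : ℝ))
      < (1 / 2 : ℝ) ^ n * 2 ^ n := by
        apply mul_lt_mul_of_pos_left h7 h6
    _ = 1 := h5

end Pool.Agent.Results.MP_289501_co.ChooserPickerErdosSelfridge
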