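import Pool.Agent.NCG.Golden

set_option autoImplicit false

/-!
# MP_289501_co, part (c): an exponential local bound for the Chooser-Picker game

Let `φ` be the golden ratio.  If `F` is `n`-uniform, each `A ∈ F` meets at most `D` other members
of `F` and `e (D + 1) ^ 2 ≤ φ ^ (n - 1)`, then Picker has a Strong Draw in the Chooser-Picker game
on `F`.  There is no bound on the number of sets or on their pairwise intersections.
The predicate `Pool.Agent.ChPi.Draw F U P` is the game: `U` is the set of unselected points and
`P` the set of points Picker has received.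
-/

namespace Pool.Agent.Results.MP_289501_co.ChooserPickerGolden

open Finset

theorem result (n D : ℕ) (hD : Real.exp 1 * ((D : ℝ) + 1) ^ 2 ≤ Real.goldenRatio ^ (n - 1))
    (V : Type) [Fintype V] [DecidableEq V] (F : Finset (Finset V)) (hF : ∀ A ∈ F, A.card = n)
    (hmeet : ∀ A ∈ F, (F.filter fun B => B ≠ A ∧ ¬ Disjoint A B).card ≤ D) :
    Pool.Agent.ChPi.Draw F univ ∅ :=
  NCG.golden_draw n D F hF hmeet hD

end Pool.Agent.Results.MP_289501_co.ChooserPickerGolden
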