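import Pool.Agent.ChPi.F

set_option autoImplicit false

/-!
# MP_289501_co, part (c): a sub-exponential local criterion for the Chooser-Picker game

For every real `a < 1/4` and all sufficiently large `n`, Picker has a Strong Draw in the
Chooser-Picker game on every finite `n`-uniform hypergraph in which every winning set meets at
most `exp (n ^ a)` other winning sets.  The predicate `Pool.Agent.ChPi.Draw F U P` is the game:
`U` is the set of unselected points and `P` the set of points Picker has received.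
-/

namespace Pool.Agent.Results.MP_289501_co.ChooserPickerLocal

open Finset

theorem result : ∀ a : ℝ, a < 1 / 4 → ∃ n₀ : ℕ, ∀ n : ℕ, n₀ ≤ n →
    ∀ (V : Type) [Fintype V] [DecidableEq V] (F : Finset (Finset V)), (∀ A ∈ F, A.card = n) →
      (∀ A ∈ F, ((F.filter fun B => B ≠ A ∧ ¬ Disjoint A B).card : ℝ) ≤
        Real.exp ((n : ℝ) ^ a)) →
      Pool.Agent.ChPi.Draw F univ ∅ := by
  intro a ha
  obtain ⟨n₀, h₀⟩ := Pool.Agent.ChPi.F.exists_large a ha
  refine ⟨n₀, fun n hn V instF instD F hF hmeet => ?_⟩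
  obtain ⟨x, hx, hax, hlog, hnx⟩ := h₀ n hn
  have hdeg : ∀ z, (F.filter fun A => z ∈ A).card ≤ ⌊Real.exp ((n : ℝ) ^ a)⌋₊ + 1 := by
    intro z
    rcases Finset.eq_empty_or_nonempty (F.filter fun A => z ∈ A) with he | ⟨A, hA⟩
    · rw [he]; simp
    · obtain ⟨hA1, hA2⟩ := Finset.mem_filter.1 hA
      have h1 : (F.filter fun B => z ∈ B) ⊆
          insert A (F.filter fun B => B ≠ A ∧ ¬ Disjoint A B) := by
        intro B hB
        obtain ⟨hB1, hB2⟩ := Finset.mem_filter.1 hB
        rw [Finset.mem_insert, Finset.mem_filter]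
        by_cases hBA : B = A
        · exact Or.inl hBA
        · exact Or.inr ⟨hB1, hBA, fun hdis => Finset.disjoint_left.1 hdis hA2 hB2⟩
      have h2 := (Finset.card_le_card h1).trans (Finset.card_insert_le _ _)
      have h3 := hmeet A hA1
      have h4 : (F.filter fun B => B ≠ A ∧ ¬ Disjoint A B).card ≤ ⌊Real.exp ((n : ℝ) ^ a)⌋₊ :=
        Nat.le_floor h3
      exact h2.trans (Nat.add_le_add_right h4 1)
  have hexp : (1 : ℝ) ≤ Real.exp ((n : ℝ) ^ a) := Real.one_le_exp (by positivity)
  have hd2 : ((⌊Real.exp ((n : ℝ) ^ a)⌋₊ + 1 : ℕ) : ℝ) ≤ 2 * Real.exp x := by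
    push_cast
    have h1 := Nat.floor_le (show 0 ≤ Real.exp ((n : ℝ) ^ a) by positivity)
    have h2 : Real.exp ((n : ℝ) ^ a) ≤ Real.exp x := Real.exp_le_exp.2 hax
    linarith
  let lo : LinearOrder V := LinearOrder.lift' (Fintype.equivFin V) (Fintype.equivFin V).injective
  have hD : instD = fun a b => lo.toDecidableEq a b := Subsingleton.elim _ _
  subst hD
  exact Pool.Agent.ChPi.F.core n x hx hlog hnx (⌊Real.exp ((n : ℝ) ^ a)⌋₊ + 1) (by omega)
    hd2 V F hF hdeg

end Pool.Agent.Results.MP_289501_co.ChooserPickerLocal
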