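import Pool.Agent.NCG.LinearFinal

set_option autoImplicit false

/-!
# MP_289501_co, part (c): families of sets with small pairwise intersections

Let `2 ^ 20 * lam * n ^ 3 ≤ f ^ 4` (that is, `f ≥ 32 lam ^ (1/4) n ^ (3/4)`).  If `F` is
`n`-uniform, any two of its members share at most `lam` points and each meets at most
`D ≤ 2 ^ (n - f)` others, then Picker has a Strong Draw in the Chooser-Picker game on `F`.
There is no bound on the number of sets.  `lam = 1` is the almost disjoint case.
The predicate `Pool.Agent.ChPi.Draw F U P` is the game: `U` is the set of unselected points and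
`P` the set of points Picker has received.
-/

namespace Pool.Agent.Archive.MP_289501_co.ChooserPickerSmallIntersections

open Finset

theorem result (n lam f D : ℕ) (hn : 2 ≤ n) (hf : 2 ^ 20 * lam * n ^ 3 ≤ f ^ 4)
    (hDf : D * 2 ^ f ≤ 2 ^ n) (V : Type) [Fintype V] [DecidableEq V] (F : Finset (Finset V))
    (hF : ∀ A ∈ F, A.card = n) (hlam : ∀ A ∈ F, ∀ B ∈ F, A ≠ B → (A ∩ B).card ≤ lam)
    (hmeet : ∀ A ∈ F, (F.filter fun B => B ≠ A ∧ ¬ Disjoint A B).card ≤ D) :
    Pool.Agent.ChPi.Draw F univ ∅ :=
  NCG.linear_draw n lam f D hn hf hDf F hF hlam hmeet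

end Pool.Agent.Archive.MP_289501_co.ChooserPickerSmallIntersections
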