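import Pool.Agent.H19CP.Comp
import Pool.Agent.H19CP.Split

set_option autoImplicit false

/-!
# MP_289501_co, part (c): exponential local bound, tower type bound on the number of sets

Let `n ≤ D` and `(D + 1) ^ (14 (r + 1)) ≤ 2 ^ n`.  Picker has a Strong Draw in the Chooser-Picker
game on every `n`-uniform `F` in which each set meets at most `D` others and which has at most
`(D + 1) T` sets, where `T` is the `r`-fold iterate of `x ↦ 2 ^ x` at `D`.
The predicate `Pool.Agent.ChPi.Draw F U P` is the game: `U` is the set of unselected points and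
`P` the set of points Picker has received.
-/

namespace Pool.Agent.Results.MP_289501_co.ChooserPickerTower

open Finset

theorem result (n r D : ℕ) (hn : 2 ≤ n) (hnD : n ≤ D) (hD : (D + 1) ^ (14 * (r + 1)) ≤ 2 ^ n)
    (V : Type) [Fintype V] [DecidableEq V] (F : Finset (Finset V)) (hF : ∀ A ∈ F, A.card = n)
    (hmeet : ∀ A ∈ F, (F.filter fun B => B ≠ A ∧ ¬ Disjoint A B).card ≤ D)
    (hcard : F.card ≤ (D + 1) * (fun x => 2 ^ x)^[r] D) :
    Pool.Agent.ChPi.Draw F univ ∅ := by
  obtain ⟨t, ht, hnum⟩ := H19CP.exists_t n r D hn hnD hD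
  obtain ⟨ω, hω⟩ := H19CP.exists_split n (r + 1) t D (by omega) (by omega) F hF hmeet hnum
  refine H19CP.draw_tower D t ht r F univ ∅
    (fun i => if h : i < r + 1 then univ.filter (fun v => ω v = ⟨i, h⟩) else ∅)
    (fun i _ => subset_univ _) ?_ ?_ hmeet ?_ hcard
  · intro i j hij
    by_cases hi : i < r + 1
    · by_cases hj : j < r + 1
      · simp only [hi, hj, dif_pos]
        rw [disjoint_left]
        intro v hv hv'
        rw [mem_filter] at hv hv'
        have h1 := hv.2.symm.trans hv'.2
        exact hij (by simpa using h1)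
      · simp [hj]
    · simp [hi]
  · intro A hA
    rw [← card_pos, hF A hA]
    omega
  · intro A hA i hi
    have h1 : i < r + 1 := by omega
    simp only [h1, dif_pos]
    refine (hω A hA ⟨i, h1⟩).trans (le_of_eq ?_)
    unfold H19CP.cnt
    congr 1
    ext v
    simp

end Pool.Agent.Results.MP_289501_co.ChooserPickerTower
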